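import Pool.Agent.X159.Nil.Orbit

/-!
# Transitive nilpotent groups of symmetries of maximal equiangular tight frames

Let a nilpotent group `G` of unitary symmetries act transitively on the `d²` lines of a maximal ETF
in `ℂ^d`, `d ≥ 4`. If the prime `p` divides `d` exactly once then the Sylow `p`-subgroup of `G` has
order `p²`. Hence if `d` is squarefree then `G` is `(ℤ/d)²`, and the frame is an orbit of the
Weyl-Heisenberg group. (For `d = 3` this is false for the Hesse configuration.)

Proof. Lifts of a central `z` of order `p` and of `y ∈ G` commute up to `χ(y)`, where `χ` is a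
nontrivial character of `G` with `χ^p = 1`. If the Sylow subgroup has an order `≥ p³`, some
`y ∈ ker χ` of `p`-power order outside of `⟨z⟩` has all its commutators in `⟨z⟩`. The eigenspaces of
the lift `A` of `z` have the dimension `d/p`, which is prime to `p`, and by determinants on them `y`
and its lift `Y` commute with `ker χ` and its lifts. The commutant of these has dimension at most
`p`, so `Y` is not orthogonal to all powers of `A`, and some `b = z^(-m) y ≠ 1` fixes a line. Then a
power `b'` of `b` of order `p` fixes all lines in an orbit of `ker χ`, which are at least `d²/p`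
lines. But a symmetry of order `p` with `f` fixed lines has `(p-1) f ≤ p √f + d`.
-/

set_option autoImplicit false

namespace Pool.Agent.Results.MP_d0f9e0_co.NilpotentSymmetry

/-- `x` is a maximal equiangular tight frame in `ℂ^d`. -/
def IsMaximalETF (d : ℕ) (x : Fin (d ^ 2) → EuclideanSpace ℂ (Fin d)) : Prop :=
  (∀ i, ‖x i‖ = 1) ∧ ∀ i j, i ≠ j → ‖inner ℂ (x i) (x j)‖ = 1 / Real.sqrt ((d : ℝ) + 1)

/-- The unitary transformation `U` maps the line of `x i` to the line of `x (π i)` for all `i`. -/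
def Induces {d : ℕ} (x : Fin (d ^ 2) → EuclideanSpace ℂ (Fin d))
    (U : EuclideanSpace ℂ (Fin d) ≃ₗᵢ[ℂ] EuclideanSpace ℂ (Fin d))
    (π : Equiv.Perm (Fin (d ^ 2))) : Prop :=
  ∀ i, ∃ c : ℂ, U (x i) = c • x (π i)

/-- `G` is a transitive group of permutations of the lines which are induced by unitary
symmetries. -/
def IsTransitiveSymmetryGroup {d : ℕ} (x : Fin (d ^ 2) → EuclideanSpace ℂ (Fin d))
    (G : Subgroup (Equiv.Perm (Fin (d ^ 2)))) : Prop :=
  (∀ π ∈ G, ∃ U, Induces x U π) ∧ ∀ i j, ∃ π ∈ G, π i = j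

/-- The frame is a Weyl-Heisenberg orbit: there are an orthonormal basis `e` of `ℂ^d` indexed by
`ℤ/d`, a primitive `d`th root of unity `ω`, a vector `ψ` and a bijection `σ` of the lines with
`(ℤ/d)²` such that, for `σ i = (t, s)`, the vector `x i` is up to a phase the displaced vector with
the coordinates `ω^(s j) ψ (j - t)`. -/
def IsWeylHeisenbergOrbit {d : ℕ} [NeZero d] (x : Fin (d ^ 2) → EuclideanSpace ℂ (Fin d)) :
    Prop :=
  ∃ (e : OrthonormalBasis (ZMod d) ℂ (EuclideanSpace ℂ (Fin d))) (ω : ℂ) (ψ : ZMod d → ℂ)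
    (σ : Fin (d ^ 2) ≃ ZMod d × ZMod d), IsPrimitiveRoot ω d ∧
    ∀ i, ∃ c : ℂ, ‖c‖ = 1 ∧
      x i = c • ∑ j, (ω ^ ((σ i).2.val * j.val) * ψ (j - (σ i).1)) • e j

open Pool.Agent.X159.Nil in
/-- **Transitive nilpotent groups of symmetries.** Let `x` be a maximal ETF in `ℂ^d`, `d ≥ 4`, and
let `G` be a nilpotent group of unitary symmetries which is transitive on the `d²` lines.
* Every prime divisor of `|G|` divides `d`.
* If the prime `p` divides `d` but `p²` does not, then the Sylow `p`-subgroups of `G` have order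
  `p²`, and their elements other than the identity fix no line.
* If `d` is squarefree, then `|G| = d²`, no element of `G` other than the identity fixes a line,
  `G` is isomorphic to `(ℤ/d)²`, and `x` is a Weyl-Heisenberg orbit. -/
theorem result (d : ℕ) [NeZero d] (hd : 4 ≤ d) (x : Fin (d ^ 2) → EuclideanSpace ℂ (Fin d))
    (hx : IsMaximalETF d x) (G : Subgroup (Equiv.Perm (Fin (d ^ 2))))
    (hG : IsTransitiveSymmetryGroup x G) (hnil : Group.IsNilpotent G) :
    (∀ p : ℕ, p.Prime → p ∣ Nat.card G → p ∣ d) ∧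
    (∀ p : ℕ, p.Prime → p ∣ d → ¬ p ^ 2 ∣ d → ∀ P : Sylow p G, Nat.card P = p ^ 2 ∧
      ∀ π ∈ P, ∀ i, (π : Equiv.Perm (Fin (d ^ 2))) i = i → π = 1) ∧
    (Squarefree d → Nat.card G = d ^ 2 ∧ (∀ π ∈ G, ∀ i, π i = i → π = 1) ∧
      Nonempty (G ≃* Multiplicative (ZMod d × ZMod d)) ∧ IsWeylHeisenbergOrbit x) := by
  have hd1 : 1 ≤ d := by omega
  have hx' : Pool.Agent.Y387.SF.IsEtf d x := ⟨hx.1, hx.2⟩
  have hG' : SymG x G := hG.1
  refine ⟨fun p hp hpG => prime_dvd hx' hd1 hG' hG.2 hp hpG, fun p hp hpd hpd2 P => ?_,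
    fun hsq => ?_⟩
  · have : Fact p.Prime := ⟨hp⟩
    exact ⟨sylow_card hd hx' hG' hG.2 hpd hpd2 P,
      fun π hπ i hi => sylow_free hd hx' hG' hG.2 hpd hpd2 P π hπ i hi⟩
  · obtain ⟨h1, h2, h3⟩ := global hd hsq hx' hG' hG.2
    refine ⟨h1, fun π hπ i hi => ?_, h2, h3⟩
    have hpre := pretrans hG.2
    have h4 : (MulAction.stabilizer G i).index = d ^ 2 := by
      rw [MulAction.index_stabilizer, MulAction.orbit_eq_univ, Set.ncard_univ,
        Nat.card_eq_fintype_card, Fintype.card_fin]
    have h5 := Subgroup.card_mul_index (MulAction.stabilizer G i)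
    rw [h4, h1] at h5
    have h6 : Nat.card (MulAction.stabilizer G i) = 1 := by
      have h7 : 0 < d ^ 2 := by positivity
      have h8 : Nat.card (MulAction.stabilizer G i) * d ^ 2 = 1 * d ^ 2 := by rw [h5, one_mul]
      exact Nat.eq_of_mul_eq_mul_right h7 h8
    have h7 := Subgroup.eq_bot_of_card_eq _ h6
    have h8 : (⟨π, hπ⟩ : G) ∈ MulAction.stabilizer G i := hi
    rw [h7, Subgroup.mem_bot] at h8
    exact congrArg Subtype.val h8

end Pool.Agent.Results.MP_d0f9e0_co.NilpotentSymmetry
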