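import Pool.Agent.X159.SicPhase
import Pool.Agent.X159.SicMix

/-!
# Distribution of the phases of the triple products of a maximal equiangular tight frame

The phases of the triple products of a maximal ETF in `ℂ^d` are quasirandom: they satisfy a mixing
lemma for all triples of disjoint sets of lines, with a main term, and for a fixed first line the
first three harmonics are small on all large rectangles. So no arc longer than a quarter of the
circle can be avoided on a rectangle with much more than `d³` elements.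

Proof. The projections `P_i` satisfy `∑ P_i = d`, so `∑_{i ∈ S} P_i = |S|/d + B_S` with `Tr B_S = 0`
and `‖B_S‖² ≤ d |S| / (d + 1)` in the Hilbert-Schmidt norm; the mixing lemma follows from
`|Tr (B_S B_T B_U)| ≤ ‖B_S‖ ‖B_T‖ ‖B_U‖`. The Gram matrix `G` has the spectrum `{0, d}` and
`G ∘ G` has the spectrum `{0, 2d/(d+1)}`, since the `x_i` form a design; so all Schur powers
`G^{∘m}`, `m ≥ 2`, have their spectrum in `[0, 2d/(d+1)]`. This bounds the harmonics, and for the
arcs we use the trigonometric polynomial `(cos θ - c) (cos θ + 1/√2)²`.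
-/

set_option autoImplicit false

namespace Pool.Agent.Results.MP_d0f9e0_co.PhaseDistribution

/-- `x` is a maximal equiangular tight frame in `ℂ^d`. -/
def IsMaximalETF (d : ℕ) (x : Fin (d ^ 2) → EuclideanSpace ℂ (Fin d)) : Prop :=
  (∀ i, ‖x i‖ = 1) ∧ ∀ i j, i ≠ j → ‖inner ℂ (x i) (x j)‖ = 1 / Real.sqrt ((d : ℝ) + 1)

/-- The phase of a triple: the triple product `⟨x_i,x_j⟩⟨x_j,x_k⟩⟨x_k,x_i⟩` divided by its modulus
`(d+1)^(-3/2)` (for distinct `i, j, k`). -/
noncomputable def phase {d : ℕ} (x : Fin (d ^ 2) → EuclideanSpace ℂ (Fin d))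
    (i j k : Fin (d ^ 2)) : ℂ :=
  ((Real.sqrt ((d : ℝ) + 1) : ℝ) : ℂ) ^ 3 *
    (inner ℂ (x i) (x j) * inner ℂ (x j) (x k) * inner ℂ (x k) (x i))

/-- The phases of the triples from `S × T × U` have the mean `(d-2) √(d+1) / d²`, up to an error of
`√(d³ / (|S| |T| |U|))`. -/
def Mixing {d : ℕ} (x : Fin (d ^ 2) → EuclideanSpace ℂ (Fin d)) : Prop :=
  ∀ S T U : Finset (Fin (d ^ 2)), Disjoint S T → Disjoint T U → Disjoint S U →
    ‖∑ i ∈ S, ∑ j ∈ T, ∑ k ∈ U, phase x i j k -
      (((d : ℝ) - 2) * Real.sqrt ((d : ℝ) + 1) / (d : ℝ) ^ 2 * (S.card * T.card * U.card) : ℝ)‖ ≤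
      Real.sqrt ((d : ℝ) ^ 3 * (S.card * T.card * U.card))

/-- Bounds for the harmonics of the phases with a fixed first line, on rectangles. -/
def Harmonics {d : ℕ} (x : Fin (d ^ 2) → EuclideanSpace ℂ (Fin d)) : Prop :=
  ∀ o, ∀ S T : Finset (Fin (d ^ 2)), o ∉ S → o ∉ T → Disjoint S T →
    ‖∑ j ∈ S, ∑ k ∈ T, phase x o j k‖ ≤
      d / 2 * Real.sqrt ((d : ℝ) + 1) * Real.sqrt (S.card * T.card) ∧
    ∀ m : ℕ, ‖∑ j ∈ S, ∑ k ∈ T, phase x o j k ^ (m + 2)‖ ≤
      d * Real.sqrt ((d : ℝ) + 1) ^ m * Real.sqrt (S.card * T.card)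

/-- Every arc `{z : Re (w z) ≥ c}` with `0 ≤ c < 1/√2` (that is, every arc longer than a quarter of
the circle and not longer than half of it) contains a positive proportion of the phases of
`{o} × S × T`, if `√(|S| |T|)` is large compared with `d √(d+1)`. -/
def QuarterArcs {d : ℕ} (x : Fin (d ^ 2) → EuclideanSpace ℂ (Fin d)) : Prop :=
  ∀ o, ∀ S T : Finset (Fin (d ^ 2)), o ∉ S → o ∉ T → Disjoint S T →
    ∀ (w : ℂ) (c : ℝ), ‖w‖ = 1 → 0 ≤ c →
      (1 / Real.sqrt 2 - c) * (S.card * T.card) -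
        4 / 3 * d * Real.sqrt ((d : ℝ) + 1) * Real.sqrt (S.card * T.card) ≤
        3 * ((S ×ˢ T).filter fun p => c ≤ (w * phase x o p.1 p.2).re).card

/-- For every pair of lines, every arc `{z : Re (w z) ≥ c}` with `c < 1/2` (longer than a third of
the circle) contains a positive proportion of the phases, if `d` is large. -/
def PairArcs {d : ℕ} (x : Fin (d ^ 2) → EuclideanSpace ℂ (Fin d)) : Prop :=
  ∀ i j, i ≠ j → ∀ (w : ℂ) (c : ℝ), ‖w‖ = 1 → c ≤ 1 →
    (1 / 2 - c) * ((d : ℝ) ^ 2 - 2) - (1 - c) * (((d : ℝ) - 2) * Real.sqrt ((d : ℝ) + 1)) - 1 ≤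
      2 * (1 - c) *
        (Finset.univ.filter fun k => k ≠ i ∧ k ≠ j ∧ c ≤ (w * phase x i j k).re).card

/-- A set of lines such that all the phases with a fixed further line avoid the arc `Re z > c`,
where `c < 1/2`, has only `O(d)` elements. -/
def BaseArcs {d : ℕ} (x : Fin (d ^ 2) → EuclideanSpace ℂ (Fin d)) : Prop :=
  ∀ o, ∀ S : Finset (Fin (d ^ 2)), o ∉ S → S.Nonempty → ∀ c : ℝ, c ≤ 1 →
    (∀ j ∈ S, ∀ k ∈ S, j ≠ k → (phase x o j k).re ≤ c) →
    (1 / 2 - c) * ((S.card : ℝ) - 1) ≤ (1 - c) * Real.sqrt ((d : ℝ) + 1) + ((d : ℝ) + 1) / 2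

open Pool.Agent.X159 in
/-- **Quasirandomness of the triple products of maximal ETFs.** For every maximal ETF in `ℂ^d`,
`d ≥ 2`, the phases of the triple products satisfy the mixing lemma, the bounds for the harmonics
and the three statements on arcs above. -/
theorem result (d : ℕ) (hd : 2 ≤ d) (x : Fin (d ^ 2) → EuclideanSpace ℂ (Fin d))
    (hx : IsMaximalETF d x) :
    Mixing x ∧ Harmonics x ∧ QuarterArcs x ∧ PairArcs x ∧ BaseArcs x := by
  classical
  have hd0 : 0 < d := by omega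
  have hx' : SicReal.IsETF d x := ⟨hx.1, hx.2⟩
  refine ⟨?_, ?_, ?_, ?_, ?_⟩
  · intro S T U h1 h2 h3
    exact SicMix.mixing hd0 hx' h1 h2 h3
  · intro o S T hoS hoT hST
    constructor
    · have h := SicPhase.harmonic hd0 hx' le_rfl hoS hoT hST
      rw [SicPhase.Cm_one] at h
      simp only [pow_one] at h
      exact h
    · intro m
      have h := SicPhase.harmonic hd0 hx' (m := m + 2) (by omega) hoS hoT hST
      have hC : SicPhase.Cm d (m + 2) = d * Real.sqrt ((d : ℝ) + 1) ^ m := by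
        have h1 : (d : ℝ) + 1 ≠ 0 := by positivity
        unfold SicPhase.Cm SicPhase.lam
        rw [if_neg (by omega), pow_add, Real.sq_sqrt (by positivity)]
        field_simp
      rw [hC] at h
      exact h
  · intro o S T hoS hoT hST w c hw hc
    refine SicPhase.arcs hd hx' hoS hoT hST w hw c hc _ ?_
    intro p hp h
    exact Finset.mem_filter.2 ⟨hp, h⟩
  · intro i j hij w c hw hc
    refine SicPhase.pair_arcs hd hx' hij w hw c hc _ ?_
    intro k hki hkj h
    exact Finset.mem_filter.2 ⟨Finset.mem_univ _, hki, hkj, h⟩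
  · intro o S ho hS c hc h
    exact SicPhase.base_arcs hd0 hx' ho hS c hc h

end Pool.Agent.Results.MP_d0f9e0_co.PhaseDistribution
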