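import Pool.Agent.X159.SicReal
import Pool.Agent.X159.SicEx

/-!
# Real and imaginary triple products in maximal equiangular tight frames

A maximal ETF in `ℂ^d` has at most `d` lines whose mutual triple products are real, and at most
`d + 2` lines whose mutual triple products (of distinct lines) are purely imaginary. In particular
an arbitrary antiunitary map of `ℂ^d`, not assumed to be a symmetry of the frame, fixes at most `d`
of the `d²` lines.

Proof. The vectors `x_i ⊗ x_i` form a tight frame of the symmetric square with frame bound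
`2d/(d+1)`, so every principal submatrix of their Gram matrix `(⟨x_i,x_j⟩²)` has its eigenvalues in
`[0, 2d/(d+1)]`. For a real configuration of `s` lines the submatrix is, up to phases,
`(d I + J)/(d+1)`, with the eigenvalue `(d+s)/(d+1)`; for an imaginary one it is
`((d+2) I - J)/(d+1)`, with the eigenvalue `(d+2-s)/(d+1)`.
-/

set_option autoImplicit false

namespace Pool.Agent.Results.MP_d0f9e0_co.RealSubsets

/-- `x` is a maximal equiangular tight frame in `ℂ^d`. -/
def IsMaximalETF (d : ℕ) (x : Fin (d ^ 2) → EuclideanSpace ℂ (Fin d)) : Prop :=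
  (∀ i, ‖x i‖ = 1) ∧ ∀ i j, i ≠ j → ‖inner ℂ (x i) (x j)‖ = 1 / Real.sqrt ((d : ℝ) + 1)

/-- the triple product `⟨x_i,x_j⟩⟨x_j,x_k⟩⟨x_k,x_i⟩` -/
noncomputable def triple {d : ℕ} (x : Fin (d ^ 2) → EuclideanSpace ℂ (Fin d))
    (i j k : Fin (d ^ 2)) : ℂ :=
  inner ℂ (x i) (x j) * inner ℂ (x j) (x k) * inner ℂ (x k) (x i)

/-- the phase of a triple: the triple product divided by its modulus `(d+1)^(-3/2)` -/
noncomputable def phase {d : ℕ} (x : Fin (d ^ 2) → EuclideanSpace ℂ (Fin d))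
    (i j k : Fin (d ^ 2)) : ℂ :=
  ((Real.sqrt ((d : ℝ) + 1) : ℝ) : ℂ) ^ 3 * triple x i j k

/-- All triple products of lines in `S` are real. -/
def RealOn {d : ℕ} (x : Fin (d ^ 2) → EuclideanSpace ℂ (Fin d)) (S : Finset (Fin (d ^ 2))) :
    Prop :=
  ∀ i ∈ S, ∀ j ∈ S, ∀ k ∈ S, (triple x i j k).im = 0

/-- All triple products of three distinct lines in `S` are purely imaginary. -/
def ImaginaryOn {d : ℕ} (x : Fin (d ^ 2) → EuclideanSpace ℂ (Fin d)) (S : Finset (Fin (d ^ 2))) :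
    Prop :=
  ∀ i ∈ S, ∀ j ∈ S, ∀ k ∈ S, i ≠ j → j ≠ k → k ≠ i → (triple x i j k).re = 0

open Pool.Agent.X159 in
theorem inner_im {a b : Fin 3} :
    (inner ℂ (SicEx.x3 1 (a, 0)) (SicEx.x3 1 (b, 0))).im = 0 := by
  have h : ∀ c j : Fin 3, (SicEx.x3 1 (c, 0) j).im = 0 := by
    intro c j
    fin_cases c <;> fin_cases j <;> simp [SicEx.x3, SicEx.v3, SicEx.sg]
  rw [SicEx.inner_eq_sum, Complex.im_sum]
  refine Finset.sum_eq_zero fun j _ => ?_
  rw [Complex.mul_im, Complex.conj_im, h, h]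
  ring

open Pool.Agent.X159 in
theorem sharp_three : ∃ x, IsMaximalETF 3 x ∧ ∃ S, S.card = 3 ∧ RealOn x S := by
  classical
  let e : Fin (3 ^ 2) ≃ Fin 3 × Fin 3 := (Fintype.equivFinOfCardEq (by simp)).symm
  have hx := SicEx.x3_etf (s := 1) (by norm_num)
  refine ⟨SicEx.x3 1 ∘ e, ⟨fun i => hx.1 _, fun i j hij => hx.2 _ _ (e.injective.ne hij)⟩,
    Finset.univ.image (fun a : Fin 3 => e.symm (a, 0)), ?_, ?_⟩
  · rw [Finset.card_image_of_injective, Finset.card_univ, Fintype.card_fin]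
    intro a b hab
    exact congrArg Prod.fst (e.symm.injective hab)
  · intro i hi j hj k hk
    rw [Finset.mem_image] at hi hj hk
    obtain ⟨a, -, rfl⟩ := hi
    obtain ⟨b, -, rfl⟩ := hj
    obtain ⟨c, -, rfl⟩ := hk
    unfold triple
    simp only [Function.comp_apply, Equiv.apply_symm_apply]
    rw [Complex.mul_im, Complex.mul_im, inner_im, inner_im, inner_im]
    ring

open Pool.Agent.X159 in
theorem exists_two : ∃ x, IsMaximalETF 2 x := by
  classical
  let e : Fin (2 ^ 2) ≃ Option (Fin 3) := (Fintype.equivFinOfCardEq (by simp)).symm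
  have hx := SicEx.x2_etf (s := 1) (by norm_num)
  exact ⟨SicEx.x2 1 ∘ e, fun i => hx.1 _, fun i j hij => hx.2 _ _ (e.injective.ne hij)⟩

theorem pair_real {d : ℕ} (x : Fin (d ^ 2) → EuclideanSpace ℂ (Fin d)) (i j : Fin (d ^ 2)) :
    RealOn x {i, j} := by
  have h1 : ∀ i, (inner ℂ (x i) (x i)).im = 0 := fun i => inner_self_im (𝕜 := ℂ) (x i)
  have h2 : ∀ i j, (inner ℂ (x i) (x j) * inner ℂ (x j) (x i)).im = 0 := by
    intro i j
    rw [← inner_conj_symm (x j) (x i), RCLike.mul_conj]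
    norm_cast
  intro a ha b hb c hc
  rw [Finset.mem_insert, Finset.mem_singleton] at ha hb hc
  unfold triple
  rcases ha with rfl | rfl <;> rcases hb with rfl | rfl <;> rcases hc with rfl | rfl
  all_goals first
    | (rw [mul_assoc, Complex.mul_im, h1, h2]; ring)
    | (rw [Complex.mul_im, h1, h2]; ring)
    | (rw [mul_right_comm, Complex.mul_im, h1, h2]; ring)

/-- Let `x` be a maximal ETF in `ℂ^d`, `d ≥ 2`.
* At most `d` of the lines have real mutual triple products; this is sharp for `d = 2` and `d = 3`.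
* At most `d + 2` of the lines are such that the triple products of any three of them are purely
  imaginary; for `d = 2` all the four lines have this property.
* A map `A` with `⟨Au, Av⟩ = ⟨v, u⟩` (an antiunitary map) maps at most `d` of the lines to
  themselves.
* Let `o` be an index and `S` a nonempty set of indices not containing it. If
  `Re (phase x o i j ^ 2) ≥ δ` for all different `i, j ∈ S`, then `(|S| - 1) δ ≤ d - 1`; if
  `Re (phase x o i j ^ 2) ≤ -δ` for all different `i, j ∈ S`, then `(|S| - 1) δ ≤ d + 1`.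
* For `i ≠ j`, at most `(d² - 4)/2` indices `k` other than `i, j` have a real triple product with
  `i, j`, and at most `d²/2` have a purely imaginary one. -/
theorem result (d : ℕ) (hd : 2 ≤ d) :
    (∀ x, IsMaximalETF d x →
      (∀ S, RealOn x S → S.card ≤ d) ∧
      (∀ S, ImaginaryOn x S → S.card ≤ d + 2) ∧
      (∀ A : EuclideanSpace ℂ (Fin d) → EuclideanSpace ℂ (Fin d),
        (∀ u v, inner ℂ (A u) (A v) = inner ℂ v u) →
        ∀ S : Finset (Fin (d ^ 2)), (∀ i ∈ S, ∃ c : ℂ, A (x i) = c • x i) → S.card ≤ d) ∧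
      (∀ o, ∀ S : Finset (Fin (d ^ 2)), o ∉ S → S.Nonempty → ∀ δ : ℝ,
        ((∀ i ∈ S, ∀ j ∈ S, i ≠ j → δ ≤ (phase x o i j ^ 2).re) →
          ((S.card : ℝ) - 1) * δ ≤ d - 1) ∧
        ((∀ i ∈ S, ∀ j ∈ S, i ≠ j → (phase x o i j ^ 2).re ≤ -δ) →
          ((S.card : ℝ) - 1) * δ ≤ d + 1)) ∧
      (∀ i j, i ≠ j → ∀ R : Finset (Fin (d ^ 2)),
        ((∀ k ∈ R, k ≠ i ∧ k ≠ j ∧ (triple x i j k).im = 0) → 2 * R.card + 4 ≤ d ^ 2) ∧
        ((∀ k ∈ R, k ≠ i ∧ k ≠ j ∧ (triple x i j k).re = 0) → 2 * R.card ≤ d ^ 2))) ∧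
    (d = 2 ∨ d = 3 → ∃ x, IsMaximalETF d x ∧ ∃ S, S.card = d ∧ RealOn x S) ∧
    (d = 2 → ∃ x, IsMaximalETF d x ∧ ∃ S, S.card = d + 2 ∧ ImaginaryOn x S) := by
  have hd0 : 0 < d := by omega
  refine ⟨?_, ?_, ?_⟩
  · intro x hx
    have hx' : Pool.Agent.X159.SicReal.IsETF d x := ⟨hx.1, hx.2⟩
    refine ⟨fun S hS => Pool.Agent.X159.SicReal.real_bound hd0 hx' S hS,
      fun S hS => Pool.Agent.X159.SicReal.imag_bound hd0 hx' S hS,
      fun A hA S hS => Pool.Agent.X159.SicReal.anti_bound hd0 hx' A hA S hS,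
      fun o S ho hS δ => ⟨fun h => Pool.Agent.X159.SicReal.arc_real hd0 hx' o S ho hS δ h,
        fun h => Pool.Agent.X159.SicReal.arc_imag hd0 hx' o S ho hS δ h⟩,
      fun i j hij R => ⟨fun h => Pool.Agent.X159.SicReal.real_count hd0 hx' hij R h,
        fun h => Pool.Agent.X159.SicReal.imag_count hd0 hx' hij R h⟩⟩
  · rintro (rfl | rfl)
    · obtain ⟨x, hx⟩ := exists_two
      refine ⟨x, hx, {⟨0, by norm_num⟩, ⟨1, by norm_num⟩}, ?_, pair_real x _ _⟩
      rw [Finset.card_pair]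
      intro h
      simpa using congrArg Fin.val h
    · exact sharp_three
  · rintro rfl
    obtain ⟨x, hx⟩ := exists_two
    refine ⟨x, hx, Finset.univ, by simp, ?_⟩
    intro i _ j _ k _ hij hjk hki
    exact Pool.Agent.X159.SicReal.two_imag ⟨hx.1, hx.2⟩ hij hjk hki

end Pool.Agent.Results.MP_d0f9e0_co.RealSubsets
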