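import Pool.Agent.X159.SicShare
import Pool.Agent.X159.SicEx

/-!
# Common lines of two maximal equiangular tight frames

The projections `P_i` of a maximal ETF form a basis of the matrices. We show that combinations of
few of the `P_i` have large rank, that no matrix of rank one is a combination of fewer than about `d`
of them except for the multiples of the `P_i` themselves, and that therefore two different maximal
ETFs in `ℂ^d` have at most `d² - d - 1` (or `6`, if `d = 3`) common lines. For `d = 2` and `d = 3`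
the bound is attained.

Proof. Let `T` be the support of a matrix `B = ∑ b_i P_i` of rank `r`, and let `k` be the dimension
of the span of `x_i`, `i ∈ T`. Sylvester's inequality gives `2k ≤ |T| + r`, and the relative bound
gives `|T| (d + 1) ≤ k (d + |T|)`. For `r = 1` we get `|T| = 1` or `|T| ≥ d`. If `|T| = d` the
`x_i`, `i ∈ T`, form a tight frame of their span, whose Gram matrix `G` has a kernel on which the
form with the diagonal matrix `(1/b_i)` vanishes; the diagonal entries of this identity give `d = 3`.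
-/

set_option autoImplicit false

namespace Pool.Agent.Results.MP_d0f9e0_co.SharedLines

/-- `x` is a maximal equiangular tight frame in `ℂ^d`. -/
def IsMaximalETF (d : ℕ) (x : Fin (d ^ 2) → EuclideanSpace ℂ (Fin d)) : Prop :=
  (∀ i, ‖x i‖ = 1) ∧ ∀ i j, i ≠ j → ‖inner ℂ (x i) (x j)‖ = 1 / Real.sqrt ((d : ℝ) + 1)

/-- The matrix `∑ b_i P_i`, where `P_i = x_i x_i^*` is the projection onto the line of `x_i`. -/
noncomputable def combination {d : ℕ} (x : Fin (d ^ 2) → EuclideanSpace ℂ (Fin d))
    (b : Fin (d ^ 2) → ℂ) : Matrix (Fin d) (Fin d) ℂ :=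
  ∑ i, b i • Matrix.vecMulVec (x i) (star (x i).ofLp)

/-- The number of nonzero coefficients. -/
noncomputable def support {d : ℕ} (b : Fin (d ^ 2) → ℂ) : ℕ := {i | b i ≠ 0}.ncard

/-- The number of the `x_i` whose inner product with `y` has the modulus `1/√(d+1)`. -/
noncomputable def atAngle {d : ℕ} (x : Fin (d ^ 2) → EuclideanSpace ℂ (Fin d))
    (y : EuclideanSpace ℂ (Fin d)) : ℕ :=
  {i | ‖inner ℂ (x i) y‖ = 1 / Real.sqrt ((d : ℝ) + 1)}.ncard

/-- `y` is a multiple of one of the `x_i`. -/
def OnLine {d : ℕ} (x : Fin (d ^ 2) → EuclideanSpace ℂ (Fin d)) (y : EuclideanSpace ℂ (Fin d)) :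
    Prop :=
  ∃ i, ∃ c : ℂ, y = c • x i

/-- The number of lines of `y` which are lines of `x`. -/
noncomputable def common {d : ℕ} (x y : Fin (d ^ 2) → EuclideanSpace ℂ (Fin d)) : ℕ :=
  {j | OnLine x (y j)}.ncard

/-- `3` for `d = 3`, `d + 1` for even `d`, and `d + 2` for all other `d`. -/
def gap (d : ℕ) : ℕ := if d = 3 then 3 else if Even d then d + 1 else d + 2

open Pool.Agent.X159 in
theorem nnz_eq {d : ℕ} (b : Fin (d ^ 2) → ℂ) : SicSupp.nnz b = support b := by
  classical
  unfold SicSupp.nnz support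
  rw [Set.ncard_eq_toFinset_card']
  congr 1
  ext i
  simp

open Pool.Agent.X159 in
theorem atAngle_eq {d : ℕ} (x : Fin (d ^ 2) → EuclideanSpace ℂ (Fin d))
    (y : EuclideanSpace ℂ (Fin d)) : SicSupp.atAngle x y = atAngle x y := by
  classical
  unfold SicSupp.atAngle atAngle
  rw [Set.ncard_eq_toFinset_card']
  congr 1
  ext i
  simp

open Pool.Agent.X159 in
theorem common_eq {d : ℕ} (x y : Fin (d ^ 2) → EuclideanSpace ℂ (Fin d)) :
    SicSupp.shared x y = common x y := by
  classical
  unfold SicSupp.shared common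
  rw [Set.ncard_eq_toFinset_card']
  congr 1
  ext i
  simp [OnLine]

open Pool.Agent.X159 in
theorem sharp_of {d : ℕ} {ι : Type} [Fintype ι] [DecidableEq ι] (hι : Fintype.card ι = d ^ 2)
    (x y : ι → EuclideanSpace ℂ (Fin d)) (hx : SicEx.IsETF d x) (hy : SicEx.IsETF d y)
    (p : ι → Prop) [DecidablePred p] (h : ∀ j, (∃ i, ∃ c : ℂ, y j = c • x i) ↔ p j) {n : ℕ}
    (hn : (Finset.univ.filter p).card = n) :
    ∃ x y : Fin (d ^ 2) → EuclideanSpace ℂ (Fin d),
      IsMaximalETF d x ∧ IsMaximalETF d y ∧ common x y = n := by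
  classical
  let e : Fin (d ^ 2) ≃ ι := (Fintype.equivFinOfCardEq hι).symm
  refine ⟨x ∘ e, y ∘ e, ⟨fun i => hx.1 _, fun i j hij => hx.2 _ _ (e.injective.ne hij)⟩,
    ⟨fun i => hy.1 _, fun i j hij => hy.2 _ _ (e.injective.ne hij)⟩, ?_⟩
  unfold common
  rw [Set.ncard_eq_toFinset_card', ← hn]
  refine Finset.card_bij (fun j _ => e j) ?_ ?_ ?_
  · intro j hj
    rw [Set.mem_toFinset] at hj
    rw [Finset.mem_filter]
    refine ⟨Finset.mem_univ _, (h _).1 ?_⟩
    obtain ⟨i, c, hc⟩ := hj
    exact ⟨e i, c, hc⟩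
  · intro i _ j _ hij
    exact e.injective hij
  · intro j hj
    rw [Finset.mem_filter] at hj
    refine ⟨e.symm j, ?_, e.apply_symm_apply j⟩
    rw [Set.mem_toFinset]
    obtain ⟨i, c, hc⟩ := (h j).2 hj.2
    refine ⟨e.symm i, c, ?_⟩
    simp only [Function.comp_apply, Equiv.apply_symm_apply]
    exact hc

/-- Let `x` be a maximal ETF in `ℂ^d`, `d ≥ 2`, with projections `P_i`, and let `g(d)` be `3` for
`d = 3`, `d + 1` for even `d` and `d + 2` otherwise.
* A matrix of rank `r` which is a combination of exactly `s` of the `P_i` satisfies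
  `(d + 2) s ≤ s² + r (s + d)`.
* A matrix of rank one which is not a multiple of some `P_i` is a combination of no fewer than
  `g(d)` of the `P_i`.
* A unit vector which does not span one of the lines of `x` makes the angle `1/√(d+1)` with at most
  `d² - g(d)` of the `x_i`.
* A maximal ETF whose lines are not the lines of `x` has at most `d² - g(d)` lines in common with `x`.
* For `d = 2` and for `d = 3` this bound is attained. -/
theorem result (d : ℕ) (hd : 2 ≤ d) :
    (∀ x, IsMaximalETF d x →
      (∀ b, (d + 2) * support b ≤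
        support b ^ 2 + (combination x b).rank * (support b + d)) ∧
      (∀ b, (combination x b).rank = 1 → support b = 1 ∨ gap d ≤ support b) ∧
      (∀ y, ‖y‖ = 1 → OnLine x y ∨ atAngle x y + gap d ≤ d ^ 2) ∧
      (∀ y, IsMaximalETF d y → common x y = d ^ 2 ∨ common x y + gap d ≤ d ^ 2)) ∧
    (d = 2 ∨ d = 3 → ∃ x y, IsMaximalETF d x ∧ IsMaximalETF d y ∧ common x y + gap d = d ^ 2) := by
  refine ⟨fun x hx => ⟨fun b => ?_, fun b hb => ?_, fun y hy => ?_, fun y hy => ?_⟩, ?_⟩
  · have h := Pool.Agent.X159.SicSupp.rank_bound x b hx.1 hx.2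
    rw [nnz_eq] at h
    rw [sq, mul_comm (d + 2)]
    exact h
  · have h := Pool.Agent.X159.SicSupp.rank_one hd x b hx.1 hx.2 hb
    rw [nnz_eq] at h
    exact h
  · have h := Pool.Agent.X159.SicSupp.atAngle_bound hd x hx.1 hx.2 y hy
    rw [atAngle_eq] at h
    exact h
  · have h := Pool.Agent.X159.SicSupp.shared_bound hd x y hx.1 hx.2 hy.1 hy.2
    rw [common_eq] at h
    exact h
  · rintro (rfl | rfl)
    · obtain ⟨x, y, hx, hy, h⟩ := sharp_of (d := 2) (by simp) _ _
        (Pool.Agent.X159.SicEx.x2_etf (s := 1) (by norm_num))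
        (Pool.Agent.X159.SicEx.x2_etf (s := -1) (by norm_num)) (fun p => p = none)
        Pool.Agent.X159.SicEx.x2_shared (n := 1) (by decide)
      exact ⟨x, y, hx, hy, by rw [h]; decide⟩
    · obtain ⟨x, y, hx, hy, h⟩ := sharp_of (d := 3) (by simp) _ _
        (Pool.Agent.X159.SicEx.x3_etf (s := 1) (by norm_num))
        (Pool.Agent.X159.SicEx.x3_etf (s := -1) (by norm_num)) (fun p => p.1 ≠ 0)
        Pool.Agent.X159.SicEx.x3_shared (n := 6) (by decide)
      exact ⟨x, y, hx, hy, by rw [h]; decide⟩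

end Pool.Agent.Results.MP_d0f9e0_co.SharedLines
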